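import Mathlib

set_option autoImplicit false

/-!
MP_c33876: solutions of the recursion of Hofstadter's Q-sequence. Growth: `limsup f n / n ≥ 1/2`
and `liminf f n / n ≤ 1/2`.
-/

namespace Pool.Agent.HofQ

/-- `f` is a solution of the recursion with `f 1 = f 2 = 1`, defined for all `n` -/
structure Sol (f : ℕ → ℕ) : Prop where
  h1 : f 1 = 1
  h2 : f 2 = 1
  lt1 : ∀ n, 3 ≤ n → f (n - 1) < n
  lt2 : ∀ n, 3 ≤ n → f (n - 2) < n
  eqn : ∀ n, 3 ≤ n → f n = f (n - f (n - 1)) + f (n - f (n - 2))

variable {f : ℕ → ℕ}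

lemma Sol.pos (h : Sol f) : ∀ n, 1 ≤ n → 1 ≤ f n := by
  intro n
  induction n using Nat.strong_induction_on with
  | _ n ih =>
    intro hn
    rcases Nat.lt_or_ge n 3 with h3 | h3
    · have : n = 1 ∨ n = 2 := by omega
      rcases this with rfl | rfl
      · rw [h.h1]
      · rw [h.h2]
    · rw [h.eqn n h3]
      have hl := h.lt1 n h3
      have hp := ih (n - 1) (by omega) (by omega)
      have := ih (n - f (n - 1)) (by omega) (by omega)
      omega

lemma Sol.le (h : Sol f) (n : ℕ) (hn : 1 ≤ n) : f n ≤ n := by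
  rcases Nat.lt_or_ge n 2 with h2 | h2
  · have : n = 1 := by omega
    subst this
    rw [h.h1]
  · have := h.lt1 (n + 1) (by omega)
    rw [Nat.add_sub_cancel] at this
    omega

/-- lower growth bound: if `f n ≤ c n` for all large `n` with `c < 1/2`, contradiction -/
theorem Sol.limsup_aux (h : Sol f) (c : ℝ) (hc0 : 0 < c) (hc : c < 1 / 2) (N : ℕ)
    (hN : ∀ n, N ≤ n → (f n : ℝ) ≤ c * n) : False := by
  set γ : ℝ := 1 - c with hγ
  have hγ0 : 0 < γ := by linarith
  have hγ1 : γ < 1 := by linarith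
  have hγ2 : 1 / 2 < γ := by linarith
  have hlog : Real.log γ < 0 := Real.log_neg hγ0 hγ1
  set s : ℝ := Real.log 2 / (-Real.log γ) with hs
  have hs1 : 1 < s := by
    rw [hs, lt_div_iff₀ (by linarith), one_mul]
    have : Real.log (1 / 2) < Real.log γ := Real.log_lt_log (by norm_num) hγ2
    rw [one_div, Real.log_inv] at this
    linarith
  have hγs : γ ^ s = 1 / 2 := by
    rw [Real.rpow_def_of_pos hγ0]
    have : Real.log γ * s = - Real.log 2 := by
      rw [hs]
      have hne : Real.log γ ≠ 0 := hlog.ne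
      rw [div_neg, mul_neg, mul_div_cancel₀ _ hne]
    rw [this, Real.exp_neg, Real.exp_log (by norm_num), one_div]
  -- the base range
  obtain ⟨M, hM⟩ : ∃ M : ℕ, ((N + 3 : ℕ) : ℝ) / γ ≤ M := exists_nat_ge _
  have hMN : N + 3 ≤ M := by
    have h1 : ((N + 3 : ℕ) : ℝ) ≤ ((N + 3 : ℕ) : ℝ) / γ := by
      rw [le_div_iff₀ hγ0]
      have : (0 : ℝ) ≤ ((N + 3 : ℕ) : ℝ) := by positivity
      nlinarith
    exact_mod_cast h1.trans hM
  have hM0 : (0 : ℝ) < M := by
    have : 0 < M := by omega
    exact_mod_cast this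
  set κ : ℝ := (M : ℝ) ^ (-s) with hκ
  have hκ0 : 0 < κ := Real.rpow_pos_of_pos hM0 _
  have key : ∀ n : ℕ, N ≤ n → 1 ≤ n → κ * (n : ℝ) ^ s ≤ f n := by
    intro n
    induction n using Nat.strong_induction_on with
    | _ n ih =>
      intro hn hn1
      have hn0 : (0 : ℝ) < n := by exact_mod_cast hn1
      rcases Nat.lt_or_ge M n with hlt | hge
      · have h3 : 3 ≤ n := by omega
        have hr := h.eqn n h3
        have hl1 := h.lt1 n h3
        have hl2 := h.lt2 n h3
        have hp1 := h.pos (n - 1) (by omega)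
        have hp2 := h.pos (n - 2) (by omega)
        have hc1 := hN (n - 1) (by omega)
        have hc2 := hN (n - 2) (by omega)
        have hnM : (M : ℝ) < n := by exact_mod_cast hlt
        have hγn : ((N + 3 : ℕ) : ℝ) ≤ γ * n := by
          have h1 := hM.trans hnM.le
          rw [div_le_iff₀ hγ0] at h1
          linarith
        have hpa : γ * n ≤ ((n - f (n - 1) : ℕ) : ℝ) := by
          rw [Nat.cast_sub hl1.le]
          have h1 : ((n - 1 : ℕ) : ℝ) ≤ n := by exact_mod_cast Nat.sub_le n 1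
          nlinarith
        have hpb : γ * n ≤ ((n - f (n - 2) : ℕ) : ℝ) := by
          rw [Nat.cast_sub hl2.le]
          have h1 : ((n - 2 : ℕ) : ℝ) ≤ n := by exact_mod_cast Nat.sub_le n 2
          nlinarith
        have hNa : N + 3 ≤ n - f (n - 1) := by exact_mod_cast hγn.trans hpa
        have hNb : N + 3 ≤ n - f (n - 2) := by exact_mod_cast hγn.trans hpb
        have ia := ih (n - f (n - 1)) (by omega) (by omega) (by omega)
        have ib := ih (n - f (n - 2)) (by omega) (by omega) (by omega)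
        have hs0 : 0 ≤ s := by linarith
        have hra : (γ * n) ^ s ≤ ((n - f (n - 1) : ℕ) : ℝ) ^ s :=
          Real.rpow_le_rpow (by positivity) hpa hs0
        have hrb : (γ * n) ^ s ≤ ((n - f (n - 2) : ℕ) : ℝ) ^ s :=
          Real.rpow_le_rpow (by positivity) hpb hs0
        rw [Real.mul_rpow hγ0.le hn0.le, hγs] at hra hrb
        rw [hr, Nat.cast_add]
        nlinarith
      · have h1 : (n : ℝ) ^ s ≤ (M : ℝ) ^ s := by
          apply Real.rpow_le_rpow hn0.le _ (by linarith)
          exact_mod_cast hge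
        have h2 : κ * (n : ℝ) ^ s ≤ κ * (M : ℝ) ^ s := mul_le_mul_of_nonneg_left h1 hκ0.le
        have h3 : κ * (M : ℝ) ^ s = 1 := by
          rw [hκ, ← Real.rpow_add hM0, neg_add_cancel, Real.rpow_zero]
        have h4 : (1 : ℝ) ≤ f n := by exact_mod_cast h.pos n hn1
        linarith
  -- contradiction for large `n`
  have hlim : Filter.Tendsto (fun n : ℕ => (n : ℝ) ^ (s - 1)) Filter.atTop Filter.atTop :=
    (tendsto_rpow_atTop (by linarith : 0 < s - 1)).comp tendsto_natCast_atTop_atTop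
  obtain ⟨n, hn1, hn2⟩ := ((hlim.eventually_gt_atTop (1 / κ)).and
    (Filter.eventually_ge_atTop (N + 1))).exists
  have hn0 : (0 : ℝ) < n := by
    have : 0 < n := by omega
    exact_mod_cast this
  have h1 := key n (by omega) (by omega)
  have h2 : (f n : ℝ) ≤ n := by exact_mod_cast h.le n (by omega)
  have h3 : (n : ℝ) ^ s = (n : ℝ) ^ (s - 1) * n := by
    rw [Real.rpow_sub_one hn0.ne']
    field_simp
  rw [h3] at h1
  rw [div_lt_iff₀ hκ0] at hn1
  nlinarith

/-- upper growth bound: if `c n ≤ f n` for all large `n` with `c > 1/2`, contradiction -/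
theorem Sol.liminf_aux (h : Sol f) (c : ℝ) (hc : 1 / 2 < c) (N : ℕ)
    (hN : ∀ n, N ≤ n → c * n ≤ (f n : ℝ)) : False := by
  have hc1 : c ≤ 1 := by
    have h1 := hN (N + 1) (by omega)
    have h2 : (f (N + 1) : ℝ) ≤ ((N + 1 : ℕ) : ℝ) := by exact_mod_cast h.le (N + 1) (by omega)
    have h3 : (0 : ℝ) < ((N + 1 : ℕ) : ℝ) := by positivity
    by_contra hcon
    push Not at hcon
    nlinarith
  -- `γ` strictly between `1 - c` and `1/2`
  set γ : ℝ := ((1 - c) + 1 / 2) / 2 with hγ
  have hγ0 : 0 < γ := by linarith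
  have hγ2 : γ < 1 / 2 := by linarith
  have hγc : 1 - c < γ := by linarith
  have hlog : Real.log γ < 0 := Real.log_neg hγ0 (by linarith)
  set s : ℝ := Real.log 2 / (-Real.log γ) with hs
  have hs0 : 0 < s := by
    rw [hs]
    exact div_pos (Real.log_pos (by norm_num)) (by linarith)
  have hs1 : s < 1 := by
    rw [hs, div_lt_iff₀ (by linarith), one_mul]
    have : Real.log γ < Real.log (1 / 2) := Real.log_lt_log hγ0 hγ2
    rw [one_div, Real.log_inv] at this
    linarith
  have hγs : γ ^ s = 1 / 2 := by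
    rw [Real.rpow_def_of_pos hγ0]
    have : Real.log γ * s = - Real.log 2 := by
      rw [hs]
      have hne : Real.log γ ≠ 0 := hlog.ne
      rw [div_neg, mul_neg, mul_div_cancel₀ _ hne]
    rw [this, Real.exp_neg, Real.exp_log (by norm_num), one_div]
  obtain ⟨M, hM⟩ : ∃ M : ℕ, (2 : ℝ) / (γ - (1 - c)) + N + 3 ≤ M := exists_nat_ge _
  have hd : 0 < γ - (1 - c) := by linarith
  have hMN : N + 3 ≤ M := by
    have h1 : (0 : ℝ) ≤ 2 / (γ - (1 - c)) := by positivity
    have h2 : ((N + 3 : ℕ) : ℝ) ≤ M := by push_cast; linarith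
    exact_mod_cast h2
  have hM0 : (0 : ℝ) < M := by
    have : 0 < M := by omega
    exact_mod_cast this
  have hM2 : 2 ≤ (γ - (1 - c)) * M := by
    have h1 : (2 : ℝ) / (γ - (1 - c)) ≤ M := by
      have : (0 : ℝ) ≤ N := by positivity
      linarith
    rw [div_le_iff₀ hd] at h1
    linarith
  set A : ℝ := (M : ℝ) ^ (1 - s) with hA
  have hA0 : 0 < A := Real.rpow_pos_of_pos hM0 _
  have key : ∀ n : ℕ, 1 ≤ n → (f n : ℝ) ≤ A * (n : ℝ) ^ s := by
    intro n
    induction n using Nat.strong_induction_on with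
    | _ n ih =>
      intro hn1
      have hn0 : (0 : ℝ) < n := by exact_mod_cast hn1
      rcases Nat.lt_or_ge M n with hlt | hge
      · have h3 : 3 ≤ n := by omega
        have hr := h.eqn n h3
        have hl1 := h.lt1 n h3
        have hl2 := h.lt2 n h3
        have hp1 := h.pos (n - 1) (by omega)
        have hp2 := h.pos (n - 2) (by omega)
        have hc1 := hN (n - 1) (by omega)
        have hc2 := hN (n - 2) (by omega)
        have hnM : (M : ℝ) < n := by exact_mod_cast hlt
        rw [Nat.cast_sub (by omega)] at hc1 hc2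
        push_cast at hc1 hc2
        have hγn : 2 ≤ (γ - (1 - c)) * n := by nlinarith
        have hpa : ((n - f (n - 1) : ℕ) : ℝ) ≤ γ * n := by
          rw [Nat.cast_sub hl1.le]
          nlinarith
        have hpb : ((n - f (n - 2) : ℕ) : ℝ) ≤ γ * n := by
          rw [Nat.cast_sub hl2.le]
          nlinarith
        have ia := ih (n - f (n - 1)) (by omega) (by omega)
        have ib := ih (n - f (n - 2)) (by omega) (by omega)
        have hra : ((n - f (n - 1) : ℕ) : ℝ) ^ s ≤ (γ * n) ^ s :=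
          Real.rpow_le_rpow (by positivity) hpa hs0.le
        have hrb : ((n - f (n - 2) : ℕ) : ℝ) ^ s ≤ (γ * n) ^ s :=
          Real.rpow_le_rpow (by positivity) hpb hs0.le
        rw [Real.mul_rpow hγ0.le hn0.le, hγs] at hra hrb
        rw [hr, Nat.cast_add]
        nlinarith
      · have h1 : (f n : ℝ) ≤ n := by exact_mod_cast h.le n hn1
        have h2 : (n : ℝ) = (n : ℝ) ^ (1 - s) * (n : ℝ) ^ s := by
          rw [← Real.rpow_add hn0, sub_add_cancel, Real.rpow_one]
        have h3 : (n : ℝ) ^ (1 - s) ≤ A := by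
          apply Real.rpow_le_rpow hn0.le _ (by linarith)
          exact_mod_cast hge
        have h4 : (0 : ℝ) ≤ (n : ℝ) ^ s := by positivity
        calc (f n : ℝ) ≤ n := h1
          _ = (n : ℝ) ^ (1 - s) * (n : ℝ) ^ s := h2
          _ ≤ A * (n : ℝ) ^ s := mul_le_mul_of_nonneg_right h3 h4
  have hlim : Filter.Tendsto (fun n : ℕ => (n : ℝ) ^ (1 - s)) Filter.atTop Filter.atTop :=
    (tendsto_rpow_atTop (by linarith : 0 < 1 - s)).comp tendsto_natCast_atTop_atTop
  obtain ⟨n, hn1, hn2⟩ := ((hlim.eventually_gt_atTop (A / c)).and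
    (Filter.eventually_ge_atTop (N + 1))).exists
  have hn0 : (0 : ℝ) < n := by
    have : 0 < n := by omega
    exact_mod_cast this
  have h1 := key n (by omega)
  have h2 := hN n (by omega)
  have h3 : (n : ℝ) = (n : ℝ) ^ (1 - s) * (n : ℝ) ^ s := by
    rw [← Real.rpow_add hn0, sub_add_cancel, Real.rpow_one]
  have h4 : (0 : ℝ) < (n : ℝ) ^ s := by positivity
  rw [div_lt_iff₀ (by linarith)] at hn1
  have h5 : c * ((n : ℝ) ^ (1 - s) * (n : ℝ) ^ s) ≤ A * (n : ℝ) ^ s := by
    rw [← h3]
    linarith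
  have h6 : c * (n : ℝ) ^ (1 - s) ≤ A := by
    by_contra hcon
    push Not at hcon
    nlinarith
  linarith

/-- a solution is unbounded -/
theorem Sol.unbounded (h : Sol f) (x : ℕ) : ∃ n, 1 ≤ n ∧ x < f n := by
  by_contra hcon
  push Not at hcon
  apply h.limsup_aux (1 / 4) (by norm_num) (by norm_num) (4 * x + 1)
  intro n hn
  have h1 := hcon n (by omega)
  have h2 : (f n : ℝ) ≤ x := by exact_mod_cast h1
  have h3 : ((4 * x + 1 : ℕ) : ℝ) ≤ n := by exact_mod_cast hn
  push_cast at h3
  linarith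

end Pool.Agent.HofQ
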